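import Pool.Agent.H20.ER3.Lib

/-!
# MP_816b90_co: Operation C, parity
-/

set_option autoImplicit false

namespace Pool.Agent.H67.ER3

open Pool.Agent.H48.ER Pool.Agent.H52.ER2 Pool.Agent.H66.ER2 Pool.Agent.H20.ER3

theorem pf_GP : U_GP := by
  intro V o G R D n x y X hH hip hn hD hal
  by_cases h0 : n = 0
  · rw [h0]; exact ⟨0, rfl⟩
  have h2 : 2 ≤ n := by omega
  by_cases hm : (Sum.inr D : V ⊕ Set V) ∈ X
  · obtain ⟨g, g0, gn, gi, ga, hX⟩ := hip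
    have hm' := hm
    rw [hX] at hm'
    obtain ⟨k, hk, ek⟩ := hm'
    have hx : x ∈ X := by rw [hX, ← g0]; exact ⟨0, by omega, rfl⟩
    have hy : y ∈ X := by rw [hX, ← gn]; exact ⟨n, le_rfl, rfl⟩
    have a1 := (hD x hx).2 (Or.inl rfl)
    have a2 := (hD y hy).2 (Or.inr rfl)
    rw [← ek, ← g0] at a1
    rw [← ek, ← gn] at a2
    have b1 := (ga k 0 hk (by omega)).1 a1
    have b2 := (ga k n hk le_rfl).1 a2
    have : n = 2 := by omega
    rw [this]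
    exact ⟨1, rfl⟩
  · refine hH n x y (Sum.inr D) X ⟨hip, h2, hm, ?_, ?_, ?_⟩ hal
    · obtain ⟨g, g0, gn, gi, ga, hX⟩ := hip
      exact (hD x (by rw [hX, ← g0]; exact ⟨0, by omega, rfl⟩)).2 (Or.inl rfl)
    · obtain ⟨g, g0, gn, gi, ga, hX⟩ := hip
      exact (hD y (by rw [hX, ← gn]; exact ⟨n, le_rfl, rfl⟩)).2 (Or.inr rfl)
    · intro w hw ha
      exact (hD w hw).1 ha

end Pool.Agent.H67.ER3
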