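import Pool.Agent.H20.ER3.Lib

/-!
# MP_816b90_co: Operation C, the union of two sets which touch
-/

set_option autoImplicit false

namespace Pool.Agent.H67.ER3

open Pool.Agent.H48.ER Pool.Agent.H52.ER2 Pool.Agent.H66.ER2 Pool.Agent.H20.ER3

/-- a subset of a union which is closed and meets the first part contains the first part -/
theorem cn_sub {V : Type} {G : SimpleGraph V} {A D X : Set V} (hA : Cn G A)
    (hm : ∃ v ∈ X, v ∈ A) (hcl : ∀ u ∈ X, ∀ w ∈ D, G.Adj u w → w ∈ X) (hAD : A ⊆ D) :
    A ⊆ X := by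
  obtain ⟨v, hvX, hvA⟩ := hm
  have h : X ∩ A = A := by
    refine hA (X ∩ A) Set.inter_subset_right ⟨v, hvX, hvA⟩ ?_
    intro u hu w hw ha
    exact ⟨hcl u hu.1 w (hAD hw) ha, hw⟩
  intro w hw
  rw [← h] at hw
  exact hw.1

theorem cn_union {V : Type} {G : SimpleGraph V} {F F' : Set V} (h : Cn G F) (h' : Cn G F')
    (ht : Tch G F F') : Cn G (F ∪ F') := by
  obtain ⟨f, hf, f', hf', e⟩ := ht
  intro X hX hne hcl
  obtain ⟨v, hv⟩ := hne
  have s1 : F ⊆ F ∪ F' := Set.subset_union_left
  have s2 : F' ⊆ F ∪ F' := Set.subset_union_right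
  have k1 : F ⊆ X → F' ⊆ X := by
    intro hs
    refine cn_sub h' ?_ hcl s2
    rcases e with e | e
    · exact ⟨f, hs hf, by rw [e]; exact hf'⟩
    · exact ⟨f', hcl f (hs hf) f' (s2 hf') e, hf'⟩
  have k2 : F' ⊆ X → F ⊆ X := by
    intro hs
    refine cn_sub h ?_ hcl s1
    rcases e with e | e
    · exact ⟨f', hs hf', by rw [← e]; exact hf⟩
    · exact ⟨f, hcl f' (hs hf') f (s1 hf) e.symm, hf⟩
  refine Set.Subset.antisymm hX ?_
  rcases hX hv with hv1 | hv1
  · have := cn_sub h ⟨v, hv, hv1⟩ hcl s1
    exact Set.union_subset this (k1 this)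
  · have := cn_sub h' ⟨v, hv, hv1⟩ hcl s2
    exact Set.union_subset (k2 this) this

theorem pf_GU : U_GU := by
  intro V G R F F' hFR hFR' hC hC' ht
  have hU : Cn G (F ∪ F') := cn_union hC hC' ht
  refine ⟨hU, ?_, ?_⟩
  · rintro (a | E)
    · constructor
      · intro h
        obtain ⟨h1, _, _, f, hf, ha⟩ := (show Sees G R (F ∪ F') a from h)
        rcases hf with hf | hf
        · exact Or.inl (show Sees G R F a from ⟨h1, hFR, hC, f, hf, ha⟩)
        · exact Or.inr (show Sees G R F' a from ⟨h1, hFR', hC', f, hf, ha⟩)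
      · rintro (h | h)
        · exact (show Sees G R F a from h).mono Set.subset_union_left
            (Set.union_subset hFR hFR') hU
        · exact (show Sees G R F' a from h).mono Set.subset_union_right
            (Set.union_subset hFR hFR') hU
    · constructor
      · intro h
        exact absurd h mg_rr
      · rintro (h | h)
        · exact absurd h mg_rr
        · exact absurd h mg_rr
  · intro Z Z' hS hF hF' hs E hE r hr hrZ
    have hrZ' : Sum.inl r ∈ Z := by
      rcases hs hrZ with e | e
      · cases e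
      · exact e
    rcases hs hE with e | e
    · have e' : E = F ∪ F' := Sum.inr.inj e
      subst e'
      obtain ⟨a1, a2⟩ := hS F hF r hr hrZ'
      obtain ⟨b1, b2⟩ := hS F' hF' r hr hrZ'
      refine ⟨?_, ?_⟩
      · rintro (h | h)
        · exact a1 h
        · exact b1 h
      · rintro f (h | h)
        · exact a2 f h
        · exact b2 f h
    · exact hS E e r hr hrZ'

end Pool.Agent.H67.ER3
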