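import Pool.Agent.H20.ER3.Lib

/-!
# MP_816b90_co: Operation C, weights
-/

set_option autoImplicit false

namespace Pool.Agent.H67.ER3

open Pool.Agent.H48.ER Pool.Agent.H52.ER2 Pool.Agent.H66.ER2 Pool.Agent.H20.ER3

/-- the weight of a set of roots -/
noncomputable def wr {V : Type} (A : Set (Set V)) : ℕ := ∑ᶠ F ∈ A, (F.ncard + 1)

theorem wr_mono {V : Type} [Finite V] {A B : Set (Set V)} (h : A ⊆ B) : wr A ≤ wr B := by
  have hB : B = A ∪ (B \ A) := by
    ext F; constructor
    · intro hF
      by_cases hA : F ∈ A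
      · exact Or.inl hA
      · exact Or.inr ⟨hF, hA⟩
    · rintro (hF | hF)
      · exact h hF
      · exact hF.1
  have hd : Disjoint A (B \ A) := by
    rw [Set.disjoint_left]
    intro F h1 h2
    exact h2.2 h1
  have e : wr B = wr A + wr (B \ A) := by
    unfold wr
    conv_lhs => rw [hB]
    exact finsum_mem_union hd (Set.toFinite _) (Set.toFinite _)
  omega

theorem wr_insert {V : Type} [Finite V] {A : Set (Set V)} {F : Set V} (h : F ∉ A) :
    wr (insert F A) = (F.ncard + 1) + wr A := by
  unfold wr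
  exact finsum_mem_insert _ h (Set.toFinite _)

theorem wr_insert_le {V : Type} [Finite V] (A : Set (Set V)) (F : Set V) :
    wr (insert F A) ≤ (F.ncard + 1) + wr A := by
  by_cases h : F ∈ A
  · rw [Set.insert_eq_of_mem h]; omega
  · exact (wr_insert h).le

theorem wr_diff {V : Type} [Finite V] {A : Set (Set V)} {F : Set V} (h : F ∈ A) :
    wr A = (F.ncard + 1) + wr (A \ {F}) := by
  have e : insert F (A \ {F}) = A := by
    ext E; constructor
    · rintro (rfl | hE)
      · exact h
      · exact hE.1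
    · intro hE
      by_cases hh : E = F
      · exact Or.inl hh
      · exact Or.inr ⟨hE, hh⟩
  have := wr_insert (A := A \ {F}) (F := F) (fun hh => hh.2 rfl)
  rw [e] at this
  exact this

theorem wt_eq {V : Type} (Z : Set (V ⊕ Set V)) : wt Z = wr (rt Z) := rfl

theorem pf_GW : U_GW := by
  intro V _ Z Z' F hF
  refine ⟨?_, ?_, ?_⟩
  · intro F0 h0 hs
    have h1 := wr_mono hs
    have h2 := wr_insert_le (rt Z \ {F}) F0
    have h3 := wr_diff hF
    rw [wt_eq, wt_eq]
    omega
  · intro F' hF' hne hs
    have h1 := wr_mono hs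
    have h2 := wr_insert_le (rt Z \ {F, F'}) (F ∪ F')
    have h3 := wr_diff hF
    have hF1 : F' ∈ rt Z \ {F} := ⟨hF', fun e => hne e.symm⟩
    have h4 := wr_diff hF1
    have e : (rt Z \ {F}) \ {F'} = rt Z \ {F, F'} := by
      ext E
      constructor
      · rintro ⟨⟨a, b⟩, c⟩
        refine ⟨a, ?_⟩
        rintro (d | d)
        · exact b d
        · exact c d
      · rintro ⟨a, b⟩
        exact ⟨⟨a, fun d => b (Or.inl d)⟩, fun d => b (Or.inr d)⟩
    rw [e] at h4
    have h5 := Set.ncard_union_le F F'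
    rw [wt_eq, wt_eq]
    omega
  · intro hs
    have h1 := wr_mono hs
    have h3 := wr_diff hF
    rw [wt_eq, wt_eq]
    omega

end Pool.Agent.H67.ER3
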